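import Pool.Agent.H85.Digits

/-!
# No well-ordered shift orbit has order type `ε₀`
-/

open Ordinal Set Order

namespace Pool.Agent.Results.MP_c20855_lc.EpsilonZero

open Pool.Agent.H85

/-- For every binary sequence `b` for which the set `A(b)` of reals is well-ordered, the order type
of `A(b)` is different from `ε₀`. -/
theorem result (b : ℕ → Fin 2) [IsWellOrder (orbitSet b) (· < ·)] :
    Ordinal.type ((· < ·) : orbitSet b → orbitSet b → Prop) ≠ ε₀ := by
  intro h
  have hN := necessity b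
  rw [h] at hN
  have hlim : IsSuccLimit (ε₀ : Ordinal.{0}) := by
    rw [← Ordinal.omega0_opow_epsilon 0]
    exact Ordinal.isSuccLimit_opow_left Ordinal.isSuccLimit_omega0 (Ordinal.epsilon_pos 0).ne'
  have key : ∀ γ : Ordinal.{0}, γ + 1 ≠ ε₀ := by
    intro γ hγ
    rw [← hγ, ← Order.succ_eq_add_one] at hlim
    exact Order.not_isSuccLimit_succ γ hlim
  rcases hN with ⟨-, h1⟩ | ⟨γ, -, -, h1 | ⟨h1, h2⟩⟩
  · exact absurd (Ordinal.omega0_lt_epsilon 0) (not_lt.2 h1.le)
  · rw [← Ordinal.omega0_opow_epsilon 0] at h1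
    exact key γ ((Ordinal.opow_right_inj Ordinal.one_lt_omega0).1 h1).symm
  · rw [← Ordinal.omega0_opow_epsilon 0] at h1 h2
    have h3 : γ + 1 ≤ ε₀ := by
      refine (Ordinal.opow_le_opow_iff_right Ordinal.one_lt_omega0).1 (le_trans ?_ h1)
      exact Ordinal.le_mul_left _ two_pos
    have h4 : ε₀ < γ + 2 := (Ordinal.opow_lt_opow_iff_right Ordinal.one_lt_omega0).1 h2
    have h5 : γ + 2 = Order.succ (γ + 1) := by
      rw [Order.succ_eq_add_one, add_assoc, one_add_one_eq_two]
    rw [h5, Order.lt_succ_iff] at h4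
    exact key γ (le_antisymm h3 h4)

end Pool.Agent.Results.MP_c20855_lc.EpsilonZero
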