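import Pool.Agent.H85.Sufficiency

/-!
# The order types of well-ordered shift orbits of binary sequences
-/

open Ordinal Set Order

namespace Pool.Agent.Results.MP_c20855_lc.OrderTypes

open Pool.Agent.H85

/-- An ordinal `α` is the order type of a well-ordered set `A(b)`, `b` a binary sequence, if and
only if it is finite and nonzero, or `α = ω ^ (γ + 1)` or `ω ^ (γ + 1) * 2 ≤ α < ω ^ (γ + 2)` for
some countable ordinal `γ ≥ 1`. -/
theorem result (α : Ordinal.{0}) :
    (∃ b : ℕ → Fin 2, ∃ _ : IsWellOrder (orbitSet b) (· < ·),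
      Ordinal.type ((· < ·) : orbitSet b → orbitSet b → Prop) = α) ↔
    ((0 < α ∧ α < ω) ∨
      ∃ γ : Ordinal.{0}, 1 ≤ γ ∧ γ < ω₁ ∧
        (α = ω ^ (γ + 1) ∨ (ω ^ (γ + 1) * 2 ≤ α ∧ α < ω ^ (γ + 2)))) := by
  constructor
  · rintro ⟨b, hb, rfl⟩
    exact necessity b
  · intro h
    exact attained_of_admissible h

end Pool.Agent.Results.MP_c20855_lc.OrderTypes
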